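import Pool.Agent.Y819.ZF.StmP

set_option autoImplicit false

/-!
# The forcing process of the power of the cycle
-/

namespace Pool.Agent.Y64.ZP

open Finset Pool.Agent.H604R2.LEC Pool.Agent.Y819.ZF

theorem mod_uniq {k x y z : ℕ} (h : y % k = z % k) (h1 : x ≤ y) (h2 : x ≤ z) (h3 : y < x + k)
    (h4 : z < x + k) : y = z := by
  rcases Nat.le_total y z with h5 | h5
  · have h6 : (z - y) % k = 0 := Nat.sub_mod_eq_zero_of_mod_eq h.symm
    have h7 : z - y = 0 := Nat.eq_zero_of_dvd_of_lt (Nat.dvd_of_mod_eq_zero h6) (by omega)
    omega
  · have h6 : (y - z) % k = 0 := Nat.sub_mod_eq_zero_of_mod_eq h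
    have h7 : y - z = 0 := Nat.eq_zero_of_dvd_of_lt (Nat.dvd_of_mod_eq_zero h6) (by omega)
    omega

/-- the remaining multiplicities -/
def mm (k n x : ℕ) : Ed (k + k) → ℕ := fun e =>
  if e.1.1.val < k ∧ k ≤ e.1.2.val then
    ((range n).filter fun y => (k < y - e.1.1.val ∧ y - e.1.1.val + k < n) ∧ x ≤ y ∧
      y % k = e.1.2.val % k).card else 0

theorem aux (k n : ℕ) (hk : 1 ≤ k) [NeZero n] (hn : 2 * k ≤ n)
    (μ : ZMod n → ZMod n → ℕ) (hs : ∀ v w, μ v w = μ w v)
    (hμ : ∀ a b : ℕ, a ≤ b → b < n →
      μ (a : ZMod n) (b : ZMod n) = if k < b - a ∧ b - a + k < n then 1 else 0) :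
    ∀ d x : ℕ, k ≤ x → x + d + k = n → ∀ H : Fin (k + k) → ℕ,
    (∀ c, c.val < k → H c = c.val) →
    (∀ c, k ≤ c.val → x ≤ H c ∧ H c < x + k ∧ H c % k = c.val % k) →
    ForcesM μ (univ.filter fun v : ZMod n => x + k ≤ v.val) (fun c => ((H c : ℕ) : ZMod n))
      (mm k n x) := by
  have hnear : ∀ a b : ℕ, a < n → b < n → a < b + k → b < a + k →
      μ (a : ZMod n) (b : ZMod n) = 0 := by
    intro a b ha hb h1 h2
    rcases Nat.le_total a b with h | h
    · rw [hμ a b h hb, if_neg (by omega)]
    · rw [hs, hμ b a h ha, if_neg (by omega)]
  have hpair : ∀ (x : ℕ) (H : Fin (k + k) → ℕ), x + k ≤ n → (∀ c, c.val < k → H c = c.val) →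
      (∀ c, k ≤ c.val → x ≤ H c ∧ H c < x + k ∧ H c % k = c.val % k) →
      ∀ e : Ed (k + k), ¬ (e.1.1.val < k ∧ k ≤ e.1.2.val) →
      μ ((H e.1.1 : ℕ) : ZMod n) ((H e.1.2 : ℕ) : ZMod n) = 0 := by
    intro x H hx h1 h2 e he
    have hlt : e.1.1.val < e.1.2.val := e.2
    by_cases hb : e.1.2.val < k
    · have ha : e.1.1.val < k := by omega
      rw [h1 _ ha, h1 _ hb]
      exact hnear _ _ (by omega) (by omega) (by omega) (by omega)
    · have ha : k ≤ e.1.1.val := by
        by_contra hc
        exact he ⟨by omega, by omega⟩
      obtain ⟨a1, a2, -⟩ := h2 _ ha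
      obtain ⟨b1, b2, -⟩ := h2 e.1.2 (by omega)
      exact hnear _ _ (by omega) (by omega) (by omega) (by omega)
  intro d
  induction d with
  | zero =>
    intro x hx hxn H h1 h2
    have hZ : (univ.filter fun v : ZMod n => x + k ≤ v.val) = ∅ := by
      rw [Finset.filter_eq_empty_iff]
      intro v _ h
      have := ZMod.val_lt v
      omega
    have hm : mm k n x = fun e : Ed (k + k) =>
        μ ((H e.1.1 : ℕ) : ZMod n) ((H e.1.2 : ℕ) : ZMod n) := by
      funext e
      by_cases he : e.1.1.val < k ∧ k ≤ e.1.2.val
      · unfold mm
        rw [if_pos he, h1 _ he.1]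
        obtain ⟨b1, b2, b3⟩ := h2 _ he.2
        rw [hμ _ _ (by omega) (by omega)]
        by_cases hc : k < H e.1.2 - e.1.1.val ∧ H e.1.2 - e.1.1.val + k < n
        · rw [if_pos hc, Finset.card_eq_one]
          refine ⟨H e.1.2, ?_⟩
          ext y
          simp only [Finset.mem_filter, Finset.mem_range, Finset.mem_singleton]
          constructor
          · rintro ⟨y1, -, y3, y4⟩
            exact mod_uniq (x := x) (y4.trans b3.symm) y3 b1 (by omega) b2
          · intro h
            rw [h]
            exact ⟨by omega, hc, b1, b3⟩
        · rw [if_neg hc, Finset.card_eq_zero, Finset.filter_eq_empty_iff]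
          rintro y y1 ⟨y2, y3, y4⟩
          rw [Finset.mem_range] at y1
          have := mod_uniq (x := x) (y4.trans b3.symm) y3 b1 (by omega) b2
          rw [this] at y2
          exact hc y2
      · rw [hpair x H (by omega) h1 h2 e he]
        unfold mm
        rw [if_neg he]
    rw [hZ, hm]
    exact ForcesM.done _
  | succ d ih =>
    intro x hx hxn H h1 h2
    have hr : x % k < k := Nat.mod_lt _ (by omega)
    have hc0 : k + x % k < k + k := by omega
    -- the moving chain
    obtain ⟨c, hc⟩ : ∃ c : Fin (k + k), c.val = k + x % k := ⟨⟨k + x % k, hc0⟩, rfl⟩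
    have hcm : c.val % k = x % k := by
      rw [hc, Nat.add_mod_left, Nat.mod_mod]
    have huniq : ∀ b : Fin (k + k), k ≤ b.val → b.val % k = x % k → b = c := by
      intro b hb hb2
      apply Fin.ext
      exact mod_uniq (x := k) (hb2.trans hcm.symm) hb (by omega) b.2 c.2
    have hHc : H c = x := by
      obtain ⟨c1, c2, c3⟩ := h2 c (by omega)
      exact mod_uniq (x := x) (c3.trans hcm) c1 le_rfl c2 (by omega)
    have hxk : x + k < n := by omega
    have hval : ((x + k : ℕ) : ZMod n).val = x + k := ZMod.val_natCast_of_lt hxk
    have key := ih (x + 1) (by omega) (by omega) (Function.update H c (x + k)) (by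
      intro b hb
      rw [Function.update_of_ne (by intro h; rw [h] at hb; omega)]
      exact h1 b hb) (by
      intro b hb
      by_cases hbc : b = c
      · rw [hbc, Function.update_self]
        refine ⟨by omega, by omega, ?_⟩
        rw [Nat.add_mod_right, hcm]
      · rw [Function.update_of_ne hbc]
        obtain ⟨b1, b2, b3⟩ := h2 b hb
        have : H b ≠ x := by
          intro h
          rw [h] at b3
          exact hbc (huniq b hb b3.symm)
        exact ⟨by omega, by omega, b3⟩)
    have hm : mm k n x = fun e : Ed (k + k) => mm k n (x + 1) e +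
        if e.1.1 = c ∨ e.1.2 = c then μ ((H e.1.1 : ℕ) : ZMod n) ((H e.1.2 : ℕ) : ZMod n) else 0 := by
      funext e
      by_cases he : e.1.1.val < k ∧ k ≤ e.1.2.val
      · have hne : e.1.1 ≠ c := by
          intro h
          have := he.1
          rw [h] at this
          omega
        unfold mm
        rw [if_pos he, if_pos he]
        by_cases hbc : e.1.2 = c
        · rw [if_pos (Or.inr hbc), h1 _ he.1, hbc, hHc, hμ _ _ (by omega) (by omega), hcm]
          by_cases hcond : k < x - e.1.1.val ∧ x - e.1.1.val + k < n
          · rw [if_pos hcond]
            have h5 : ((range n).filter fun y => (k < y - e.1.1.val ∧ y - e.1.1.val + k < n) ∧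
                x ≤ y ∧ y % k = x % k) =
              insert x ((range n).filter fun y => (k < y - e.1.1.val ∧ y - e.1.1.val + k < n) ∧
                x + 1 ≤ y ∧ y % k = x % k) := by
              ext y
              simp only [Finset.mem_filter, Finset.mem_range, Finset.mem_insert]
              constructor
              · rintro ⟨y1, y2, y3, y4⟩
                by_cases hy : y = x
                · exact Or.inl hy
                · exact Or.inr ⟨y1, y2, by omega, y4⟩
              · rintro (h | ⟨y1, y2, y3, y4⟩)
                · rw [h]
                  exact ⟨by omega, hcond, le_rfl, rfl⟩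
                · exact ⟨y1, y2, by omega, y4⟩
            rw [h5, Finset.card_insert_of_notMem]
            simp only [Finset.mem_filter, not_and]
            intro _ _ h
            omega
          · rw [if_neg hcond, Nat.add_zero]
            congr 1
            apply Finset.filter_congr
            intro y _
            constructor
            · rintro ⟨y2, y3, y4⟩
              refine ⟨y2, ?_, y4⟩
              by_contra h
              have : y = x := by omega
              rw [this] at y2
              exact hcond y2
            · rintro ⟨y2, y3, y4⟩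
              exact ⟨y2, by omega, y4⟩
        · rw [if_neg (by rintro (h | h); exacts [hne h, hbc h]), Nat.add_zero]
          congr 1
          apply Finset.filter_congr
          intro y _
          constructor
          · rintro ⟨y2, y3, y4⟩
            refine ⟨y2, ?_, y4⟩
            by_contra h
            have : y = x := by omega
            rw [this] at y4
            exact hbc (huniq _ he.2 y4.symm)
          · rintro ⟨y2, y3, y4⟩
            exact ⟨y2, by omega, y4⟩
      · rw [hpair x H (by omega) h1 h2 e he]
        unfold mm
        rw [if_neg he, if_neg he]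
        split_ifs <;> rfl
    rw [hm]
    have hup : Function.update (fun c => ((H c : ℕ) : ZMod n)) c ((x + k : ℕ) : ZMod n) =
        fun b => ((Function.update H c (x + k) b : ℕ) : ZMod n) := by
      funext b
      by_cases hbc : b = c
      · rw [hbc, Function.update_self, Function.update_self]
      · rw [Function.update_of_ne hbc, Function.update_of_ne hbc]
    have hZ : (univ.filter fun v : ZMod n => x + k ≤ v.val).erase ((x + k : ℕ) : ZMod n) =
        univ.filter fun v : ZMod n => x + 1 + k ≤ v.val := by
      ext v
      simp only [Finset.mem_erase, Finset.mem_filter, Finset.mem_univ, true_and]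
      constructor
      · rintro ⟨v1, v2⟩
        have : v.val ≠ x + k := by
          intro h
          apply v1
          apply ZMod.val_injective n
          rw [h, hval]
        omega
      · intro h
        refine ⟨?_, by omega⟩
        intro h'
        rw [h', hval] at h
        omega
    refine ForcesM.step _ (fun c => ((H c : ℕ) : ZMod n)) c ((x + k : ℕ) : ZMod n) _ ?_ ?_ ?_ ?_
    · simp only [Finset.mem_filter, Finset.mem_univ, true_and]
      rw [hval]
    · show μ ((H c : ℕ) : ZMod n) _ = 0
      rw [hHc, hμ _ _ (by omega) hxk, if_neg (by omega)]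
    · intro z hz hzu
      simp only [Finset.mem_filter, Finset.mem_univ, true_and] at hz
      show μ ((H c : ℕ) : ZMod n) z = 1
      have hz2 : ((z.val : ℕ) : ZMod n) = z := ZMod.natCast_zmod_val z
      have hz3 : z.val ≠ x + k := by
        intro h
        apply hzu
        rw [← hz2, h]
      have hz4 := ZMod.val_lt z
      rw [← hz2, hHc, hμ _ _ (by omega) hz4, if_pos (by omega)]
    · rw [hup, hZ]
      exact key

theorem bip_eq (k N n : ℕ) (hk : 1 ≤ k) (hN : 1 ≤ N) (hn : n = k * N + 2 * k) :
    mm k n k = fun e : Ed (k + k) =>
      bipS (fun i j : Fin k => if i = j then N - 1 else N) e.1.1 e.1.2 := by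
  funext e
  obtain ⟨⟨a, b⟩, hab⟩ := e
  induction a using Fin.addCases with
  | left i =>
    induction b using Fin.addCases with
    | left j =>
      unfold mm bipS
      have hj : ¬ k ≤ (Fin.castAdd k j).val := by
        rw [Fin.val_castAdd]
        have := j.2
        omega
      rw [if_neg (fun h => hj h.2), Fin.addCases_left, Fin.addCases_left]
    | right j =>
      unfold mm bipS
      rw [Fin.addCases_left, Fin.addCases_right]
      show (if i.val < k ∧ k ≤ k + j.val then ((range n).filter fun y =>
        (k < y - i.val ∧ y - i.val + k < n) ∧ k ≤ y ∧ y % k = (k + j.val) % k).card else 0) = _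
      have hi := i.2
      have hj := j.2
      rw [if_pos ⟨hi, by omega⟩, Nat.add_mod_left, Nat.mod_eq_of_lt hj]
      have hmain : ∀ s t : ℕ, (∀ q : ℕ, (i.val < k * q + j.val ∧ k * q + j.val < k * N + i.val) ↔
          (s ≤ q ∧ q < t)) → ((range n).filter fun y =>
        (k < y - i.val ∧ y - i.val + k < n) ∧ k ≤ y ∧ y % k = j.val).card = t - s := by
        intro s t hst
        have h1 : ((range n).filter fun y =>
            (k < y - i.val ∧ y - i.val + k < n) ∧ k ≤ y ∧ y % k = j.val) =
            (Finset.Ico s t).image fun q => k * (q + 1) + j.val := by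
          ext y
          simp only [Finset.mem_filter, Finset.mem_range, Finset.mem_image, Finset.mem_Ico]
          constructor
          · rintro ⟨y1, y2, y3, y4⟩
            have h5 := Nat.div_add_mod y k
            have h6 : 1 ≤ y / k := (Nat.one_le_div_iff (by omega)).2 y3
            obtain ⟨q, hq⟩ : ∃ q, y / k = q + 1 := ⟨y / k - 1, by omega⟩
            rw [hq, y4] at h5
            refine ⟨q, (hst q).1 ?_, h5⟩
            have h7 : k * (q + 1) = k * q + k := by ring
            rw [h7] at h5
            omega
          · rintro ⟨q, hq, hy⟩
            have h7 : k * (q + 1) = k * q + k := by ring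
            have h8 := (hst q).2 hq
            have h9 : (k * (q + 1) + j.val) % k = j.val := by
              rw [Nat.mul_add_mod, Nat.mod_eq_of_lt hj]
            rw [← hy, h9, h7]
            refine ⟨by omega, by omega, by omega, rfl⟩
        rw [h1, Finset.card_image_of_injective, Nat.card_Ico]
        intro q q' hqq
        have h2 : k * (q + 1) + j.val = k * (q' + 1) + j.val := hqq
        have h3 : k * (q + 1) = k * (q' + 1) := by omega
        have := Nat.eq_of_mul_eq_mul_left (by omega) h3
        omega
      have hmul : ∀ u v : ℕ, u ≤ v → k * u ≤ k * v := fun u v h => Nat.mul_le_mul_left k h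
      show _ = if i = j then N - 1 else N
      rcases lt_trichotomy i.val j.val with h | h | h
      · rw [if_neg (fun h' => by rw [h'] at h; omega), hmain 0 N]
        · rfl
        · intro q
          constructor
          · rintro ⟨q1, q2⟩
            refine ⟨by omega, ?_⟩
            by_contra hc
            have := hmul N q (by omega)
            omega
          · rintro ⟨q1, q2⟩
            have := hmul (q + 1) N (by omega)
            have h7 : k * (q + 1) = k * q + k := by ring
            omega
      · rw [if_pos (Fin.ext h), hmain 1 N]
        intro q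
        constructor
        · rintro ⟨q1, q2⟩
          refine ⟨?_, ?_⟩
          · by_contra hc
            have : q = 0 := by omega
            rw [this] at q1
            omega
          · by_contra hc
            have := hmul N q (by omega)
            omega
        · rintro ⟨q1, q2⟩
          have := hmul (q + 1) N (by omega)
          have := hmul 1 q q1
          have h7 : k * (q + 1) = k * q + k := by ring
          omega
      · rw [if_neg (fun h' => by rw [h'] at h; omega), hmain 1 (N + 1)]
        · rfl
        · intro q
          constructor
          · rintro ⟨q1, q2⟩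
            refine ⟨?_, ?_⟩
            · by_contra hc
              have : q = 0 := by omega
              rw [this] at q1
              omega
            · by_contra hc
              have := hmul (N + 1) q (by omega)
              have h7 : k * (N + 1) = k * N + k := by ring
              omega
          · rintro ⟨q1, q2⟩
            have := hmul q N (by omega)
            have := hmul 1 q q1
            omega
  | right i =>
    unfold mm bipS
    have hi : ¬ (Fin.natAdd k i).val < k := by
      rw [Fin.val_natAdd]
      omega
    rw [if_neg (fun h => hi h.1), Fin.addCases_right]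
    induction b using Fin.addCases with
    | left j =>
      exfalso
      have h1 : (Fin.natAdd k i).val < (Fin.castAdd k j).val := hab
      rw [Fin.val_natAdd, Fin.val_castAdd] at h1
      have := j.2
      omega
    | right j => rw [Fin.addCases_right]

theorem main : S_PWF := by
  intro k N n hk hN hn _ μ hs hμ
  have hkN : k * 1 ≤ k * N := Nat.mul_le_mul_left k hN
  have h := aux k n hk (by omega) μ hs hμ (k * N) k le_rfl (by omega)
    (fun c => c.val) (fun c _ => rfl) (fun c hc => ⟨hc, c.2, rfl⟩)
  rw [bip_eq k N n hk hN hn] at h
  have hZ : (univ.filter fun v : ZMod n => 2 * k ≤ v.val) =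
      univ.filter fun v : ZMod n => k + k ≤ v.val := by
    apply Finset.filter_congr
    intro v _
    rw [two_mul]
  rw [hZ]
  exact h

end Pool.Agent.Y64.ZP
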